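import Pool.Agent.GD64.S3Pres

open Gundy

universe u

/-- Weak-type Orlicz Gundy decomposition: for every Orlicz function `Φ` with the Delta_2 condition
there is a constant `C` such that, for every von Neumann algebra with a normal semifinite faithful
trace and a filtration, every `L_1`-bounded martingale `x` is a sum of martingales `y`, `z` with
`Φ(μ_t(S^c(y))) + Φ(μ_t(S^r(z))) ≤ (C/t) sup_n τ[Φ(|x_n|)]` for all `t > 0`. -/
theorem Pool.Agent.Results.MP_e75cbb_an.WeakOrliczGundy.result (Φ : ℝ → ℝ)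
    (hΦ : IsOrlicz Φ) (h2 : DeltaTwo Φ) :
    ∃ C : ℝ, 0 < C ∧
      ∀ (H : Type u) [NormedAddCommGroup H] [InnerProductSpace ℂ H] [CompleteSpace H]
        (M : VonNeumannAlgebra H) (τ : Trace M) (𝓕 : Filtration τ)
        (x : ℕ → (H →L[ℂ] H) → ℂ), IsMartingale 𝓕 x → IsBounded M x →
        HasDecomposition 𝓕 Φ C x :=
  GD64.pres Φ hΦ h2
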